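import Pool.Agent.Helper61.NW.Goals

/-!
# NIL from CEN
-/

set_option autoImplicit false

namespace Pool.Agent.Helper91.NW

universe u

theorem nil (hC : Pool.Agent.Helper61.NW.CenStmt.{u}) : Pool.Agent.Helper61.NW.NilStmt.{u} := by
  intro Γ _ hfg hinf hnil
  obtain ⟨z, hz, hzi⟩ := hC Γ hfg hinf hnil
  have hzc : z ∈ Subgroup.center Γ := Subgroup.mem_center_iff.2 hz
  have hZle : Subgroup.zpowers z ≤ Subgroup.center Γ := (Subgroup.zpowers_le).2 hzc
  have hZn : (Subgroup.zpowers z).Normal := by
    refine ⟨fun n hn g ↦ ?_⟩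
    have h1 : g * n = n * g := (Subgroup.mem_center_iff.1 (hZle hn)) g
    rw [h1, mul_inv_cancel_right]
    exact hn
  by_cases hQ : Finite (Γ ⧸ Subgroup.zpowers z)
  · left
    have : (Subgroup.zpowers z).FiniteIndex := Subgroup.finiteIndex_of_finite_quotient
    exact Subgroup.finiteIndex_of_le hZle
  · have hQi : Infinite (Γ ⧸ Subgroup.zpowers z) := not_finite_iff_infinite.1 hQ
    have hfgQ : Group.FG (Γ ⧸ Subgroup.zpowers z) :=
      @QuotientGroup.fg Γ _ hfg (Subgroup.zpowers z) _
    obtain ⟨wb, hwb, hwi⟩ := hC (Γ ⧸ Subgroup.zpowers z) hfgQ hQi inferInstance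
    obtain ⟨w, rfl⟩ := QuotientGroup.mk_surjective wb
    have hcomm : ∀ g : Γ, ∃ k : ℤ, g * w = w * z ^ k * g := by
      intro g
      have h1 := hwb (g : Γ ⧸ Subgroup.zpowers z)
      have h2 : ((w * g : Γ) : Γ ⧸ Subgroup.zpowers z) = ((g * w : Γ) : Γ ⧸ Subgroup.zpowers z) := by
        rw [QuotientGroup.mk_mul, QuotientGroup.mk_mul, h1]
      rw [QuotientGroup.eq] at h2
      obtain ⟨k, hk⟩ := Subgroup.mem_zpowers_iff.1 h2
      refine ⟨k, ?_⟩
      have h3 : g * z ^ k = z ^ k * g :=
        (Subgroup.mem_center_iff.1 (Subgroup.zpow_mem _ hzc k)) g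
      rw [mul_assoc, ← h3, ← mul_assoc, hk]
      group
    by_cases hfi : (Subgroup.closure {z, w}).FiniteIndex
    · left
      have hw : ∀ g : Γ, g * w = w * g := by
        intro g
        obtain ⟨k, hk⟩ := hcomm g
        obtain ⟨n, hn, -, hmem⟩ := Subgroup.exists_pow_mem_of_index_ne_zero hfi.index_ne_zero g
        have hcen : Subgroup.closure {z, w} ≤ Subgroup.centralizer {w} := by
          rw [Subgroup.closure_le]
          intro y hy
          rw [SetLike.mem_coe, Subgroup.mem_centralizer_singleton_iff]
          rcases hy with rfl | hy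
          · exact (hz w).symm
          · rw [Set.mem_singleton_iff.1 hy]
        have h1 : g ^ n * w = w * g ^ n := Subgroup.mem_centralizer_singleton_iff.1 (hcen hmem)
        have h2 : ∀ m : ℕ, g ^ m * w = w * z ^ (k * (m : ℤ)) * g ^ m := by
          intro m
          induction m with
          | zero => simp
          | succ m ih =>
            have h3 : g * z ^ (k * (m : ℤ)) = z ^ (k * (m : ℤ)) * g :=
              (Subgroup.mem_center_iff.1 (Subgroup.zpow_mem _ hzc _)) g
            calc g ^ (m + 1) * w = g * (g ^ m * w) := by rw [pow_succ', mul_assoc]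
              _ = g * w * z ^ (k * (m : ℤ)) * g ^ m := by rw [ih]; simp only [mul_assoc]
              _ = w * z ^ k * (g * z ^ (k * (m : ℤ))) * g ^ m := by
                rw [hk]; simp only [mul_assoc]
              _ = w * (z ^ k * z ^ (k * (m : ℤ))) * (g * g ^ m) := by
                rw [h3]; simp only [mul_assoc]
              _ = w * z ^ (k * ((m + 1 : ℕ) : ℤ)) * g ^ (m + 1) := by
                rw [← zpow_add, ← pow_succ']
                congr 3
                push_cast
                ring
        have h4 := h2 n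
        rw [h1, mul_assoc] at h4
        have h5 := mul_left_cancel h4
        have h6 : z ^ (k * (n : ℤ)) = 1 := by
          have h7 : 1 * g ^ n = z ^ (k * (n : ℤ)) * g ^ n := by rw [one_mul]; exact h5
          exact (mul_right_cancel h7).symm
        have h8 : k = 0 := by
          rcases mul_eq_zero.1 (hzi _ h6) with h9 | h9
          · exact h9
          · exact absurd (by exact_mod_cast h9) hn.ne'
        rw [hk, h8, zpow_zero, mul_one]
      have hle : Subgroup.closure {z, w} ≤ Subgroup.center Γ := by
        rw [Subgroup.closure_le]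
        intro y hy
        rcases hy with rfl | hy
        · exact hzc
        · rw [Set.mem_singleton_iff.1 hy]
          exact Subgroup.mem_center_iff.2 hw
      exact Subgroup.finiteIndex_of_le hle
    · right
      refine ⟨z, w, hz, fun i j hij ↦ ?_, hfi⟩
      have h1 : ((w : Γ ⧸ Subgroup.zpowers z)) ^ i = 1 := by
        rw [← QuotientGroup.mk_zpow, QuotientGroup.eq_one_iff]
        have h2 : w ^ i = z ^ (-j) := by
          rw [zpow_neg]
          exact eq_inv_of_mul_eq_one_left hij
        rw [h2]
        exact Subgroup.zpow_mem_zpowers z (-j)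
      have hi := hwi i h1
      refine ⟨hi, ?_⟩
      rw [hi, zpow_zero, one_mul] at hij
      exact hzi j hij

end Pool.Agent.Helper91.NW
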